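import Pool.Agent.Lib.MP_0ba2dd_ag.H45Fin

/-! The Kuznetsov component of a smooth cubic threefold is indecomposable. -/

namespace Pool.Agent.Lib.MP_0ba2dd_ag.Variants.KuCubicThreefold

open CategoryTheory MvPolynomial Pool.Agent.Lib.MP_0ba2dd_ag

universe u w

theorem result (k : Type u) [Field k] [IsAlgClosed k] (h2 : (2 : k) ≠ 0) (h3 : (3 : k) ≠ 0)
    (f : MvPolynomial (Fin 5) k) [Fact (f.IsHomogeneous 3)]
    (smooth : ∀ p : Fin 5 → k, eval p f = 0 → (∀ i, eval p (pderiv i f) = 0) → p = 0)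
    [HasDerivedCategory.{w} (CohSh (Hyp f))] :
    Indecomposable (KuOf (strO (Hyp f)) (twO f 1)) :=
  indecomposable_coh h2 h3 smooth

end Pool.Agent.Lib.MP_0ba2dd_ag.Variants.KuCubicThreefold
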